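import Pool.Agent.H77.BC.Targets

/-!
# Row CMS: elementary matrices are commutators in `SL`
-/

set_option autoImplicit false

open Set Matrix

namespace Pool.Agent.H6.BCP

open Pool.Agent.H77.BC

theorem pf_CMS : CMS := by
  classical
  intro K _ _ k i j t hij
  obtain ⟨a, ha⟩ := Infinite.exists_notMem_finset ({0, 1, -1} : Finset K)
  simp only [Finset.mem_insert, Finset.mem_singleton, not_or] at ha
  obtain ⟨ha0, ha1, ha2⟩ := ha
  have hsq : a ^ 2 - 1 ≠ 0 := by
    intro h
    have h1 : (a - 1) * (a + 1) = 0 := by ring_nf; ring_nf at h; exact h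
    rcases mul_eq_zero.1 h1 with h2 | h2
    · exact ha1 (sub_eq_zero.1 h2)
    · exact ha2 (eq_neg_of_add_eq_zero_left h2)
  set c : K := t / (a ^ 2 - 1) with hc
  set d : Fin k → K := fun x => Pi.mulSingle (M := fun _ => K) i a x *
    Pi.mulSingle (M := fun _ => K) j a⁻¹ x with hd
  have hdi : d i = a := by
    simp [hd, Pi.mulSingle_apply, hij]
  have hdj : d j = a⁻¹ := by
    simp [hd, Pi.mulSingle_apply, hij.symm]
  have hdet : (diagonal d).det = 1 := by
    rw [det_diagonal, hd, Finset.prod_mul_distrib, Finset.prod_pi_mulSingle',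
      Finset.prod_pi_mulSingle']
    simp [mul_inv_cancel₀ ha0]
  have hdet2 : ∀ r : K, (transvection i j r).det = 1 := fun r => det_transvection_of_ne i j hij r
  set s : GL (Fin k) K := Matrix.GeneralLinearGroup.mkOfDetNeZero (diagonal d)
    (by rw [hdet]; exact one_ne_zero) with hs
  set s' : GL (Fin k) K := Matrix.GeneralLinearGroup.mkOfDetNeZero (transvection i j c)
    (by rw [hdet2]; exact one_ne_zero) with hs'
  set T : GL (Fin k) K := Matrix.GeneralLinearGroup.mkOfDetNeZero (transvection i j t)
    (by rw [hdet2]; exact one_ne_zero) with hT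
  have e1 : s.val = diagonal d := rfl
  have e2 : s'.val = transvection i j c := rfl
  have e3 : T.val = transvection i j t := rfl
  refine ⟨s, s', by rw [e1, hdet], by rw [e2, hdet2], ?_⟩
  have key : s * s' = T * s' * s := by
    apply Units.ext
    rw [Units.val_mul, Units.val_mul, Units.val_mul, e1, e2, e3,
      transvection_mul_transvection_same i j hij]
    ext x y
    rw [diagonal_mul, mul_diagonal]
    simp only [transvection, Matrix.add_apply, Matrix.one_apply, Matrix.single_apply]
    by_cases hxy : x = y
    · subst hxy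
      have : ¬ (i = x ∧ j = x) := by
        rintro ⟨h1, h2⟩
        exact hij (h1.trans h2.symm)
      simp [this]
    · by_cases h2 : i = x ∧ j = y
      · obtain ⟨rfl, rfl⟩ := h2
        rw [hdi, hdj]
        simp only [hxy, if_false, zero_add, true_and, if_true]
        have h3 : (a ^ 2 - 1) * c = t := by
          rw [hc]
          field_simp
        have h4 : t + c = a ^ 2 * c := by linear_combination -h3
        rw [h4]
        field_simp
      · simp [hxy, h2]
  rw [key]
  have : T * s' * s * s⁻¹ * s'⁻¹ = T := by group
  rw [this, e3]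

end Pool.Agent.H6.BCP
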