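import Pool.Agent.H77.BC.Targets

/-!
# Row EAA: a vector of type `k`
-/

set_option autoImplicit false

open Set Matrix

namespace Pool.Agent.H6.BCP

open Pool.Agent.H77.BC

variable {K : Type} [Field K]

theorem va_mulVec {n : ℕ} (x η y : Fin n → K) :
    (1 + vecMulVec x η) *ᵥ y = y + (η ⬝ᵥ y) • x := by
  rw [add_mulVec, one_mulVec]
  congr 1
  funext i
  simp only [mulVec, vecMulVec, dotProduct, of_apply, Pi.smul_apply, smul_eq_mul, Finset.sum_mul]
  apply Finset.sum_congr rfl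
  intro j _
  ring

theorem va_vecMul {n : ℕ} (x η y : Fin n → K) :
    y ᵥ* (1 + vecMulVec x η) = y + (y ⬝ᵥ x) • η := by
  rw [vecMul_add, vecMul_one]
  congr 1
  funext i
  simp only [vecMul, vecMulVec, dotProduct, of_apply, Pi.smul_apply, smul_eq_mul, Finset.sum_mul]
  apply Finset.sum_congr rfl
  intro j _
  ring

theorem va_gl {n : ℕ} (x η : Fin n → K) (h : 1 + η ⬝ᵥ x ≠ 0) :
    ∃ g : GL (Fin n) K, (g.val : Matrix (Fin n) (Fin n) K) = 1 + vecMulVec x η := by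
  set V : Matrix (Fin n) (Fin n) K := vecMulVec x η with hV
  set e : K := η ⬝ᵥ x with he
  have hVV : V * V = e • V := by
    rw [hV, he]
    ext i j
    simp only [Matrix.mul_apply, vecMulVec_apply, Matrix.smul_apply, smul_eq_mul, dotProduct,
      Finset.sum_mul]
    apply Finset.sum_congr rfl
    intro l _
    ring
  set c : K := (1 + e)⁻¹ with hc
  have hc1 : 1 - c * (1 + e) = 0 := by rw [hc, inv_mul_cancel₀ h, sub_self]
  have h1 : (1 + V) * (1 - c • V) = 1 := by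
    have h2 : (1 + V) * (1 - c • V) = 1 + (1 - c * (1 + e)) • V := by
      simp only [mul_sub, add_mul, mul_one, one_mul, mul_smul_comm, hVV]
      module
    rw [h2, hc1, zero_smul, add_zero]
  have h3 : (1 - c • V) * (1 + V) = 1 := by
    have h2 : (1 - c • V) * (1 + V) = 1 + (1 - c * (1 + e)) • V := by
      simp only [mul_add, sub_mul, mul_one, one_mul, smul_mul_assoc, hVV, smul_smul]
      module
    rw [h2, hc1, zero_smul, add_zero]
  exact ⟨⟨1 + V, 1 - c • V, h1, h3⟩, rfl⟩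

/-- A vector orthogonal to two given vectors. -/
theorem va_orth {n : ℕ} (hn : 3 ≤ n) (v w : Fin n → K) :
    ∃ η : Fin n → K, η ≠ 0 ∧ η ⬝ᵥ v = 0 ∧ η ⬝ᵥ w = 0 := by
  let f : (Fin n → K) →ₗ[K] (K × K) :=
    { toFun := fun η => (η ⬝ᵥ v, η ⬝ᵥ w)
      map_add' := fun a b => by simp [add_dotProduct]
      map_smul' := fun c a => by simp [smul_dotProduct] }
  have hf : LinearMap.ker f ≠ ⊥ := by
    apply LinearMap.ker_ne_bot_of_finrank_lt
    rw [Module.finrank_prod, Module.finrank_self, Module.finrank_fin_fun]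
    omega
  obtain ⟨η, h1, h2⟩ := Submodule.exists_mem_ne_zero_of_ne_bot hf
  rw [LinearMap.mem_ker] at h1
  have h3 : (η ⬝ᵥ v, η ⬝ᵥ w) = ((0 : K), (0 : K)) := h1
  rw [Prod.mk.injEq] at h3
  exact ⟨η, h2, h3.1, h3.2⟩

theorem pf_EAA : EAA := by
  classical
  intro K _ _ k hk H v hv
  obtain ⟨χ, hχv, hH⟩ := hv
  have hχ0 : χ ≠ 0 := by
    rintro rfl
    exact hχv (zero_dotProduct _)
  refine ⟨χ, hχ0, ?_⟩
  intro h hh
  by_cases hcase : h ∈ Pv v
  · have h1 : h ∈ H ⊓ Pv v := ⟨hh, hcase⟩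
    rw [hH] at h1
    exact h1.2
  -- `v' = h v`, `χ' = χ h⁻¹`
  set v' : Fin (k + 2) → K := h.val *ᵥ v with hv'
  set χ' : Fin (k + 2) → K := χ ᵥ* (h⁻¹).val with hχ'
  have hinv : (h⁻¹).val * h.val = 1 := by rw [← Units.val_mul, inv_mul_cancel, Units.val_one]
  have hinv' : h.val * (h⁻¹).val = 1 := by rw [← Units.val_mul, mul_inv_cancel, Units.val_one]
  have hχ'h : χ' ᵥ* h.val = χ := by
    rw [hχ', vecMul_vecMul, hinv, vecMul_one]
  have hχ'v' : χ' ⬝ᵥ v' = χ ⬝ᵥ v := by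
    rw [hv', dotProduct_mulVec, hχ'h]
  have hv'K : ∀ a : K, v' ≠ a • v := fun a ha => hcase ⟨a, ha⟩
  set α : K := (χ ⬝ᵥ v') / (χ ⬝ᵥ v) with hα
  set w : Fin (k + 2) → K := v' - α • v with hw
  have hχw : χ ⬝ᵥ w = 0 := by
    rw [hw, dotProduct_sub, dotProduct_smul, smul_eq_mul, hα, div_mul_cancel₀ _ hχv, sub_self]
  have hv'w : v' = α • v + w := by rw [hw]; abel
  set β : K := (χ' ⬝ᵥ v) / (χ ⬝ᵥ v) with hβ
  set ψ : Fin (k + 2) → K := χ' - β • χ with hψ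
  have hψv : ψ ⬝ᵥ v = 0 := by
    rw [hψ, sub_dotProduct, smul_dotProduct, smul_eq_mul, hβ, div_mul_cancel₀ _ hχv, sub_self]
  have hχ'ψ : χ' = β • χ + ψ := by rw [hψ]; abel
  -- the test elements
  have hT : ∀ x η : Fin (k + 2) → K, χ ⬝ᵥ x = 0 → η ⬝ᵥ v = 0 → η ⬝ᵥ w = 0 →
      1 + η ⬝ᵥ x ≠ 0 → ∃ a : K, (χ' ⬝ᵥ x) • η = a • χ' := by
    intro x η h1 h2 h3 h4
    obtain ⟨g, hg⟩ := va_gl x η h4
    have hgv : g.val *ᵥ v = v := by rw [hg, va_mulVec, h2, zero_smul, add_zero]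
    have hgw : g.val *ᵥ w = w := by rw [hg, va_mulVec, h3, zero_smul, add_zero]
    have hgv' : g.val *ᵥ v' = v' := by
      rw [hv'w, mulVec_add, mulVec_smul, hgv, hgw]
    have hgχ : χ ᵥ* g.val = χ := by rw [hg, va_vecMul, h1, zero_smul, add_zero]
    have hgm : g ∈ H ⊓ Pv v := by
      rw [hH]
      exact ⟨⟨1, by rw [one_smul]; exact hgv⟩, ⟨1, by rw [one_smul]; exact hgχ⟩⟩
    have hgH : g ∈ H := hgm.1
    have hc : h⁻¹ * g * h ∈ H ⊓ Pv v := by
      refine ⟨H.mul_mem (H.mul_mem (H.inv_mem hh) hgH) hh, 1, ?_⟩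
      rw [Units.val_mul, Units.val_mul, ← mulVec_mulVec, ← mulVec_mulVec, ← hv', hgv', hv',
        mulVec_mulVec, hinv, one_mulVec, one_smul]
    rw [hH] at hc
    obtain ⟨a, ha⟩ := hc.2
    rw [Units.val_mul, Units.val_mul, ← vecMul_vecMul, ← vecMul_vecMul, ← hχ'] at ha
    have h5 : χ' ᵥ* g.val = a • χ' := by
      have h6 := congrArg (fun y => y ᵥ* (h⁻¹).val) ha
      rw [vecMul_vecMul, hinv', vecMul_one, smul_vecMul, ← hχ'] at h6
      exact h6
    rw [hg, va_vecMul] at h5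
    refine ⟨a - 1, ?_⟩
    rw [sub_smul, one_smul, ← h5]
    abel
  by_cases hψ0 : ψ = 0
  · -- `χ' = β χ`
    have h1 : h⁻¹ ∈ Ph χ := by
      refine ⟨β, ?_⟩
      rw [hψ0, add_zero] at hχ'ψ
      rw [← hχ'ψ]
    have h2 := (Ph χ).inv_mem h1
    rwa [inv_inv] at h2
  exfalso
  have hχ'v'0 : χ' ⬝ᵥ v' ≠ 0 := by rw [hχ'v']; exact hχv
  by_cases hs : χ' ⬝ᵥ w = 0
  · have h1 : χ' ⬝ᵥ v ≠ 0 := by
      intro h2
      apply hχ'v'0
      rw [hv'w, dotProduct_add, dotProduct_smul, h2, hs, smul_zero, add_zero]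
    have hψw : ψ ⬝ᵥ w = 0 := by
      rw [hψ, sub_dotProduct, smul_dotProduct, hs, hχw, smul_zero, sub_zero]
    obtain ⟨y, hy⟩ : ∃ y : Fin (k + 2) → K, ψ ⬝ᵥ y ≠ 0 := by
      by_contra hcon
      push Not at hcon
      apply hψ0
      funext i
      have h3 := hcon (Pi.single i 1)
      rw [dotProduct_single, mul_one] at h3
      exact h3
    set x0 : Fin (k + 2) → K := y - ((χ ⬝ᵥ y) / (χ ⬝ᵥ v)) • v with hx0
    have hχx0 : χ ⬝ᵥ x0 = 0 := by
      rw [hx0, dotProduct_sub, dotProduct_smul, smul_eq_mul, div_mul_cancel₀ _ hχv, sub_self]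
    have hψx0 : ψ ⬝ᵥ x0 = ψ ⬝ᵥ y := by
      rw [hx0, dotProduct_sub, dotProduct_smul, hψv, smul_zero, sub_zero]
    obtain ⟨s, hs'⟩ := Infinite.exists_notMem_finset ({0, -1} : Finset K)
    simp only [Finset.mem_insert, Finset.mem_singleton, not_or] at hs'
    set x : Fin (k + 2) → K := (s / (ψ ⬝ᵥ y)) • x0 with hx
    have hψx : ψ ⬝ᵥ x = s := by
      rw [hx, dotProduct_smul, hψx0, smul_eq_mul, div_mul_cancel₀ _ hy]
    have hχx : χ ⬝ᵥ x = 0 := by rw [hx, dotProduct_smul, hχx0, smul_zero]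
    obtain ⟨a, ha⟩ := hT x ψ hχx hψv hψw (by
      rw [hψx]
      intro h3
      exact hs'.2 (eq_neg_of_add_eq_zero_right h3))
    have h3 : χ' ⬝ᵥ x = s := by
      rw [hχ'ψ, add_dotProduct, smul_dotProduct, hχx, smul_zero, zero_add, hψx]
    rw [h3] at ha
    have h4 := congrArg (fun z => z ⬝ᵥ v) ha
    rw [smul_dotProduct, smul_dotProduct, hψv, smul_zero, smul_eq_mul] at h4
    have h5 : a = 0 := by
      rcases mul_eq_zero.1 h4.symm with h6 | h6
      · exact h6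
      · exact absurd h6 h1
    rw [h5, zero_smul] at ha
    rcases smul_eq_zero.1 ha with h6 | h6
    · exact hs'.1 h6
    · exact hψ0 h6
  · obtain ⟨η, hη0, hηv, hηw⟩ := va_orth (by omega : 3 ≤ k + 2) v w
    obtain ⟨a, ha⟩ := hT w η hχw hηv hηw (by rw [hηw, add_zero]; exact one_ne_zero)
    have h4 := congrArg (fun z => z ⬝ᵥ v') ha
    have hηv' : η ⬝ᵥ v' = 0 := by
      rw [hv'w, dotProduct_add, dotProduct_smul, hηv, hηw, smul_zero, add_zero]
    rw [smul_dotProduct, smul_dotProduct, hηv', smul_zero, smul_eq_mul] at h4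
    have h5 : a = 0 := by
      rcases mul_eq_zero.1 h4.symm with h6 | h6
      · exact h6
      · exact absurd h6 hχ'v'0
    rw [h5, zero_smul] at ha
    rcases smul_eq_zero.1 ha with h6 | h6
    · exact hs h6
    · exact hη0 h6

end Pool.Agent.H6.BCP
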