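import Pool.Agent.H77.BC.Targets

/-!
# Row SLG: the elementary matrices generate `SL`
-/

set_option autoImplicit false

open Set Matrix

namespace Pool.Agent.H6.BCP

open Pool.Agent.H77.BC

theorem pf_SLG (h : BGN) : SLG := by
  intro K _ k H hE g hg
  obtain ⟨N, hN⟩ := h K k
  obtain ⟨L, -, hL⟩ := hN g.val hg
  have key : ∀ L : List (TransvectionStruct (Fin k) K), ∃ g ∈ H,
      (g.val : Matrix (Fin k) (Fin k) K) = (L.map TransvectionStruct.toMatrix).prod := by
    intro L
    induction L with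
    | nil => exact ⟨1, H.one_mem, by simp⟩
    | cons t L ih =>
      obtain ⟨g1, hg1, e1⟩ := ih
      obtain ⟨g2, hg2, e2⟩ := hE t.i t.j t.c t.hij
      refine ⟨g2 * g1, H.mul_mem hg2 hg1, ?_⟩
      rw [Units.val_mul, e1, e2, List.map_cons, List.prod_cons]
      rfl
  obtain ⟨g1, hg1, e1⟩ := key L
  have : g = g1 := Units.ext (by rw [e1, hL])
  rw [this]
  exact hg1

end Pool.Agent.H6.BCP
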