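import Pool.Agent.H77.BC.Targets

/-!
# Row TRA: root groups in the quotient of `SL` by its centre
-/

set_option autoImplicit false

open Set Matrix

namespace Pool.Agent.H6.BCP

open Pool.Agent.H77.BC

variable {K : Type} [Field K]

/-- A conjugate of `1 + E` which is a multiple of `1 + F`. -/
theorem tr_key {n : ℕ} (A A' E F : Matrix (Fin n) (Fin n) K) (z : K) (hA : A * A' = 1)
    (hA' : A' * A = 1) (hE : E * E = 0) (hF : F * F = 0) (hF0 : F ≠ 0)
    (h : A * (1 + E) = z • ((1 + F) * A)) : z = 1 ∧ A * E = F * A := by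
  set X := A * E * A' with hX
  have hXX : X * X = 0 := by
    calc X * X = A * E * (A' * A) * E * A' := by rw [hX]; simp only [Matrix.mul_assoc]
      _ = A * (E * E) * A' := by rw [hA']; simp only [Matrix.mul_assoc, Matrix.one_mul]
      _ = 0 := by rw [hE, Matrix.mul_zero, Matrix.zero_mul]
  have h1 : 1 + X = z • (1 + F) := by
    have h2 : A * (1 + E) * A' = z • ((1 + F) * A) * A' := by rw [h]
    rw [Matrix.mul_add, Matrix.add_mul, Matrix.mul_one, hA, Matrix.smul_mul, Matrix.mul_assoc,
      Matrix.mul_assoc, hA, Matrix.mul_one, ← Matrix.mul_assoc] at h2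
    exact h2
  have h2 : X = (z - 1) • (1 : Matrix (Fin n) (Fin n) K) + z • F := by
    have : X = z • (1 + F) - 1 := by rw [← h1]; abel
    rw [this, smul_add, sub_smul, one_smul]
    abel
  have h3 : X * X * F = ((z - 1) * (z - 1)) • F := by
    rw [h2]
    simp only [Matrix.mul_add, Matrix.add_mul, Matrix.smul_mul, Matrix.mul_smul, Matrix.one_mul,
      Matrix.mul_one, hF, smul_zero, add_zero, smul_smul]
  rw [hXX, Matrix.zero_mul] at h3
  have h4 : (z - 1) * (z - 1) = 0 := by
    rcases smul_eq_zero.1 h3.symm with h5 | h5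
    · exact h5
    · exact absurd h5 hF0
  have hz : z = 1 := sub_eq_zero.1 (mul_self_eq_zero.1 h4)
  refine ⟨hz, ?_⟩
  rw [hz, sub_self, zero_smul, zero_add, one_smul] at h2
  calc A * E = A * E * (A' * A) := by rw [hA', Matrix.mul_one]
    _ = X * A := by rw [hX]; simp only [Matrix.mul_assoc]
    _ = F * A := by rw [h2]

/-- Equal images. -/
theorem tr_eq {G : Type} [Group G] {m : ℕ} (π : SpecialLinearGroup (Fin (m + 2)) K →* G)
    (hπ : π.ker = Subgroup.center _) {A B : SpecialLinearGroup (Fin (m + 2)) K}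
    (h : π A = π B) : ∃ r : K, A.val = r • B.val := by
  have h1 : A * B⁻¹ ∈ π.ker := by
    rw [MonoidHom.mem_ker, map_mul, map_inv, h, mul_inv_cancel]
  rw [hπ, Matrix.SpecialLinearGroup.mem_center_iff] at h1
  obtain ⟨r, -, hr⟩ := h1
  refine ⟨r, ?_⟩
  have h2 : A = (A * B⁻¹) * B := by group
  have h3 : A.val = (A * B⁻¹).val * B.val := by
    conv_lhs => rw [h2]
    rfl
  rw [h3]
  have h4 : (A * B⁻¹).val = scalar (Fin (m + 2)) r := hr.symm
  rw [h4, scalar_apply, ← smul_eq_diagonal_mul]

/-- Proportional matrices have equal images. -/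
theorem tr_eq' {G : Type} [Group G] {m : ℕ} (π : SpecialLinearGroup (Fin (m + 2)) K →* G)
    (hπ : π.ker = Subgroup.center _) {A B : SpecialLinearGroup (Fin (m + 2)) K} {r : K}
    (h : A.val = r • B.val) : π A = π B := by
  have hd : r ^ (m + 2) = 1 := by
    have h1 := A.det_coe
    have h2 := B.det_coe
    have h3 : A.val.det = (r • B.val).det := by rw [h]
    rw [det_smul, Fintype.card_fin] at h3
    have h4 : A.val.det = 1 := h1
    have h5 : B.val.det = 1 := h2
    rw [h4, h5, mul_one] at h3
    exact h3.symm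
  have h1 : A * B⁻¹ ∈ π.ker := by
    rw [hπ, Matrix.SpecialLinearGroup.mem_center_iff]
    refine ⟨r, by rw [Fintype.card_fin]; exact hd, ?_⟩
    have h2 : (A * B⁻¹).val = A.val * (B⁻¹).val := rfl
    have h3 : B.val * (B⁻¹).val = 1 := congrArg Subtype.val (mul_inv_cancel B)
    change scalar (Fin (m + 2)) r = (A * B⁻¹).val
    rw [h2, h, Matrix.smul_mul, h3, scalar_apply, smul_one_eq_diagonal]
  rw [MonoidHom.mem_ker, map_mul, map_inv, mul_inv_eq_one] at h1
  exact h1

theorem sx_val {m : ℕ} (t : K) : (sx (m := m) t).val = 1 + t • single 0 1 (1 : K) := by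
  show transvection 0 1 t = _
  rw [transvection, smul_single, smul_eq_mul, mul_one]

theorem tr_EE {m : ℕ} : single (0 : Fin (m + 2)) (1 : Fin (m + 2)) (1 : K) *
    single (0 : Fin (m + 2)) (1 : Fin (m + 2)) (1 : K) = 0 := by
  rw [single_mul_single_of_ne]
  simp

theorem tr_E0 {n : ℕ} (i j : Fin n) : single i j (1 : K) ≠ 0 := by
  intro h
  have h1 := congrFun (congrFun h i) j
  simp at h1

theorem tr_inj {G : Type} [Group G] {m : ℕ} (π : SpecialLinearGroup (Fin (m + 2)) K →* G)
    (hπ : π.ker = Subgroup.center _) : Function.Injective (fun t : K => π (sx t)) := by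
  intro s t h
  obtain ⟨r, hr⟩ := tr_eq π hπ h
  have h0 : (sx (m := m) s).val 0 0 = r * (sx (m := m) t).val 0 0 := by rw [hr]; rfl
  have h1 : (sx (m := m) s).val 0 1 = r * (sx (m := m) t).val 0 1 := by rw [hr]; rfl
  rw [sx_val, sx_val] at h0 h1
  simp at h0 h1
  rw [← h0, one_mul] at h1
  exact h1

/-- commuting in the image -/
theorem tr_comm {G : Type} [Group G] {m : ℕ} (π : SpecialLinearGroup (Fin (m + 2)) K →* G)
    (hπ : π.ker = Subgroup.center _) {A X Y : SpecialLinearGroup (Fin (m + 2)) K}
    (E F : Matrix (Fin (m + 2)) (Fin (m + 2)) K) (hX : X.val = 1 + E) (hY : Y.val = 1 + F)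
    (hE : E * E = 0) (hF : F * F = 0) (hF0 : F ≠ 0)
    (h : π A * π X = π Y * π A) : A.val * E = F * A.val := by
  rw [← map_mul, ← map_mul] at h
  obtain ⟨r, hr⟩ := tr_eq π hπ h
  have h1 : (A * X).val = A.val * X.val := rfl
  have h2 : (Y * A).val = Y.val * A.val := rfl
  rw [h1, h2, hX, hY] at hr
  exact (tr_key A.val (A⁻¹).val E F r (congrArg Subtype.val (mul_inv_cancel A))
    (congrArg Subtype.val (inv_mul_cancel A)) hE hF hF0 hr).2

theorem pf_TRA : TRA := by
  classical
  intro K G _ _ m π hsurj hπ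
  refine ⟨tr_inj π hπ, ?_⟩
  intro g
  constructor
  · intro hg
    obtain ⟨B, rfl⟩ := hsurj g
    -- `B` commutes with `E_ij`
    have hB : ∀ i j : Fin (m + 2), i ≠ 1 → j ≠ 0 → i ≠ j →
        B.val * single i j 1 = single i j 1 * B.val := by
      intro i j hi hj hij
      set X : SpecialLinearGroup (Fin (m + 2)) K :=
        ⟨transvection i j 1, det_transvection_of_ne _ _ hij 1⟩ with hX
      have hXv : X.val = 1 + single i j 1 := rfl
      have hcomm : X * sx 1 = sx 1 * X := by
        apply Subtype.ext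
        change X.val * (sx (1 : K)).val = (sx (1 : K)).val * X.val
        rw [hXv, sx_val, one_smul]
        have h1 : single i j (1 : K) * single 0 1 1 = 0 := by
          rw [single_mul_single_of_ne]
          exact hj
        have h2 : single (0 : Fin (m + 2)) 1 (1 : K) * single i j 1 = 0 := by
          rw [single_mul_single_of_ne]
          exact hi.symm
        simp only [Matrix.mul_add, Matrix.add_mul, h1, h2, Matrix.one_mul, Matrix.mul_one, add_zero]
        abel
      have h3 := hg (π X) (by rw [← map_mul, ← map_mul, hcomm])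
      have hEE : single i j (1 : K) * single i j 1 = 0 := by
        rw [single_mul_single_of_ne]
        exact hij.symm
      exact tr_comm π hπ _ _ hXv hXv hEE hEE (tr_E0 i j) h3
    have hrow : ∀ i j : Fin (m + 2), i ≠ 1 → j ≠ 0 → i ≠ j → ∀ y, y ≠ j → B.val j y = 0 := by
      intro i j hi hj hij y hy
      have h1 := congrFun (congrFun (hB i j hi hj hij) i) y
      rw [mul_single_apply_of_ne (hbj := hy)] at h1
      rw [single_mul_apply_same] at h1
      simpa using h1.symm
    have hcol : ∀ i j : Fin (m + 2), i ≠ 1 → j ≠ 0 → i ≠ j → ∀ x, x ≠ i → B.val x i = 0 := by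
      intro i j hi hj hij x hx
      have h1 := congrFun (congrFun (hB i j hi hj hij) x) j
      rw [mul_single_apply_same] at h1
      rw [single_mul_apply_of_ne (h := hx)] at h1
      simpa using h1
    have hdia : ∀ i j : Fin (m + 2), i ≠ 1 → j ≠ 0 → i ≠ j → B.val i i = B.val j j := by
      intro i j hi hj hij
      have h1 := congrFun (congrFun (hB i j hi hj hij) i) j
      rw [mul_single_apply_same, single_mul_apply_same] at h1
      simpa using h1
    have h01 : (0 : Fin (m + 2)) ≠ 1 := by simp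
    have hd1 : B.val 0 0 = B.val 1 1 := hdia 0 1 h01 h01.symm h01
    have hr1 : ∀ y, y ≠ 1 → B.val 1 y = 0 := hrow 0 1 h01 h01.symm h01
    have ha : B.val 0 0 ≠ 0 := by
      intro h0
      have h2 : B.val.det = 0 := by
        apply det_eq_zero_of_row_eq_zero 1
        intro y
        by_cases hy : y = 1
        · rw [hy, ← hd1, h0]
        · exact hr1 y hy
      have h3 : B.val.det = 1 := B.det_coe
      rw [h2] at h3
      exact zero_ne_one h3
    refine ⟨B.val 0 1 / B.val 0 0, ?_⟩
    apply tr_eq' π hπ (r := B.val 0 0)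
    rw [sx_val, smul_add, smul_smul, mul_div_cancel₀ _ ha]
    ext x y
    rw [Matrix.add_apply, Matrix.smul_apply, Matrix.smul_apply, Matrix.one_apply,
      Matrix.single_apply, smul_eq_mul, smul_eq_mul]
    by_cases hxy : x = y
    · subst hxy
      have h1 : ¬ (0 = x ∧ 1 = x) := by
        rintro ⟨h1, h2⟩
        exact h01 (h1.trans h2.symm)
      rw [if_pos rfl, if_neg h1, mul_one, mul_zero, add_zero]
      by_cases hx : x = 0
      · rw [hx]
      · exact (hdia 0 x h01 hx (Ne.symm hx)).symm
    · rw [if_neg hxy, mul_zero, zero_add]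
      by_cases h2 : 0 = x ∧ 1 = y
      · obtain ⟨rfl, rfl⟩ := h2
        simp
      · rw [if_neg h2, mul_zero]
        by_cases hx : x = 0
        · subst hx
          have hy : y ≠ 1 := fun h => h2 ⟨rfl, h.symm⟩
          exact hcol y 1 hy h01.symm hy 0 hxy
        · exact hrow 0 x h01 hx (Ne.symm hx) y (Ne.symm hxy)
  · rintro ⟨t, rfl⟩ h hh
    obtain ⟨C, rfl⟩ := hsurj h
    have h1 := tr_comm π hπ (A := C) (X := sx 1) (Y := sx 1) (single 0 1 1) (single 0 1 1)
      (by rw [sx_val, one_smul]) (by rw [sx_val, one_smul]) tr_EE tr_EE (tr_E0 _ _) hh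
    rw [← map_mul, ← map_mul]
    congr 1
    apply Subtype.ext
    change (sx t).val * C.val = C.val * (sx t).val
    rw [sx_val, Matrix.add_mul, Matrix.mul_add, Matrix.smul_mul, Matrix.mul_smul, h1,
      Matrix.one_mul, Matrix.mul_one]

end Pool.Agent.H6.BCP
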