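import Pool.Agent.H6.BCP.TRA

/-!
# Row TRB: the multiplication of the field
-/

set_option autoImplicit false

open Set Matrix

namespace Pool.Agent.H6.BCP

open Pool.Agent.H77.BC

variable {K : Type} [Field K]

/-- A diagonal matrix which conjugates `sx t` to `sx (s ^ 2 t)`. -/
theorem tr_diag (m : ℕ) (s : K) (hs : s ≠ 0) : ∃ A : SpecialLinearGroup (Fin (m + 2)) K,
    ∀ t : K, A * sx t = sx (s ^ 2 * t) * A := by
  classical
  have h01 : (0 : Fin (m + 2)) ≠ 1 := by simp
  set d : Fin (m + 2) → K := fun x => Pi.mulSingle (M := fun _ => K) 0 s x *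
    Pi.mulSingle (M := fun _ => K) 1 s⁻¹ x with hd
  have hd0 : d 0 = s := by
    simp [hd, Pi.mulSingle_apply]
  have hd1 : d 1 = s⁻¹ := by
    simp [hd, Pi.mulSingle_apply]
  have hdet : (diagonal d).det = 1 := by
    rw [det_diagonal, hd, Finset.prod_mul_distrib, Finset.prod_pi_mulSingle',
      Finset.prod_pi_mulSingle']
    simp [mul_inv_cancel₀ hs]
  refine ⟨⟨diagonal d, hdet⟩, ?_⟩
  intro t
  apply Subtype.ext
  change diagonal d * (sx t).val = (sx (s ^ 2 * t)).val * diagonal d
  rw [sx_val, sx_val]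
  ext x y
  rw [diagonal_mul, mul_diagonal]
  simp only [Matrix.add_apply, Matrix.one_apply, Matrix.smul_apply, Matrix.single_apply,
    smul_eq_mul]
  by_cases hxy : x = y
  · subst hxy
    have : ¬ (0 = x ∧ 1 = x) := by
      rintro ⟨h1, h2⟩
      exact h01 (h1.trans h2.symm)
    simp [this]
  · by_cases h2 : 0 = x ∧ 1 = y
    · obtain ⟨rfl, rfl⟩ := h2
      rw [hd0, hd1]
      simp only [h01, if_false, zero_add, true_and, if_true, mul_one]
      field_simp
    · simp [hxy, h2]

theorem pf_TRB : TRB := by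
  intro K G _ _ _ m π hsurj hπ a b c ha
  constructor
  · rintro ⟨h, h1, h2⟩
    obtain ⟨A, rfl⟩ := hsurj h
    have h3 : π A * π (sx 1) = π (sx a) * π A := by
      rw [← h1, inv_mul_cancel_right]
    have hF : (a • single (0 : Fin (m + 2)) (1 : Fin (m + 2)) (1 : K)) *
        (a • single (0 : Fin (m + 2)) (1 : Fin (m + 2)) (1 : K)) = 0 := by
      rw [Matrix.smul_mul, Matrix.mul_smul, tr_EE, smul_zero, smul_zero]
    have hF0 : (a • single (0 : Fin (m + 2)) (1 : Fin (m + 2)) (1 : K)) ≠ 0 :=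
      smul_ne_zero ha (tr_E0 _ _)
    have h4 := tr_comm π hπ (A := A) (X := sx 1) (Y := sx a)
      (single (0 : Fin (m + 2)) (1 : Fin (m + 2)) (1 : K))
      (a • single (0 : Fin (m + 2)) (1 : Fin (m + 2)) (1 : K))
      (by rw [sx_val, one_smul]) (by rw [sx_val]) tr_EE hF hF0 h3
    have h5 : A * sx b = sx (a * b) * A := by
      apply Subtype.ext
      change A.val * (sx b).val = (sx (a * b)).val * A.val
      rw [sx_val, sx_val, Matrix.mul_add, Matrix.add_mul, Matrix.mul_smul, h4, Matrix.smul_mul,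
        Matrix.smul_mul, smul_smul, mul_comm b a, Matrix.mul_one, Matrix.one_mul]
    have h6 : π (sx (a * b)) = π (sx c) := by
      rw [← h2, ← map_mul, h5, map_mul, mul_inv_cancel_right]
    exact (tr_inj π hπ h6).symm
  · intro hc
    obtain ⟨s, hs⟩ := IsAlgClosed.exists_pow_nat_eq a (n := 2) (by norm_num)
    have hs0 : s ≠ 0 := by
      rintro rfl
      apply ha
      rw [← hs]
      simp
    obtain ⟨A, hA⟩ := tr_diag m s hs0
    refine ⟨π A, ?_, ?_⟩
    · rw [← map_mul, hA, map_mul, mul_inv_cancel_right, hs, mul_one]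
    · rw [← map_mul, hA, map_mul, mul_inv_cancel_right, hs, hc]

end Pool.Agent.H6.BCP
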