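import Pool.Agent.H6.BCP.TRA

/-!
# Row TRC: the other root groups
-/

set_option autoImplicit false

open Set Matrix

namespace Pool.Agent.H6.BCP

open Pool.Agent.H77.BC

private lemma ex_perm {n : ℕ} (a b i j : Fin n) (hab : a ≠ b) (hij : i ≠ j) :
    ∃ σ : Equiv.Perm (Fin n), σ a = i ∧ σ b = j := by
  set τ : Equiv.Perm (Fin n) := Equiv.swap a i with hτ
  have h1 : τ a = i := Equiv.swap_apply_left a i
  have h2 : τ⁻¹ j ≠ a := by
    intro h
    apply hij
    rw [← h1, ← h]
    simp
  refine ⟨τ * Equiv.swap b (τ⁻¹ j), ?_, ?_⟩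
  · rw [Equiv.Perm.mul_apply, Equiv.swap_apply_of_ne_of_ne hab (Ne.symm h2), h1]
  · rw [Equiv.Perm.mul_apply, Equiv.swap_apply_left]
    simp

theorem pf_TRC : TRC := by
  classical
  intro K _ m i j hij
  have h01 : (0 : Fin (m + 2)) ≠ 1 := by simp
  obtain ⟨σ, hσ0, hσ1⟩ := ex_perm (0 : Fin (m + 2)) 1 i j h01 hij
  set ε : K := ((Equiv.Perm.sign σ : ℤ) : K) with hε
  have hεε : ε * ε = 1 := by
    rw [hε, ← Int.cast_mul, Int.units_coe_mul_self, Int.cast_one]
  have hε0 : ε ≠ 0 := by
    intro h
    rw [h, zero_mul] at hεε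
    exact zero_ne_one hεε
  set d : Fin (m + 2) → K := Pi.mulSingle (M := fun _ => K) 1 ε with hd
  have hd0 : d 0 = 1 := by
    simp [hd]
  have hd1 : d 1 = ε := by
    simp [hd]
  set W : Matrix (Fin (m + 2)) (Fin (m + 2)) K := (σ⁻¹).permMatrix K * diagonal d with hW
  have hWapp : ∀ x y, W x y = if x = σ y then d y else 0 := by
    intro x y
    rw [hW, mul_diagonal, Equiv.Perm.permMatrix, PEquiv.toMatrix_apply]
    simp only [Equiv.toPEquiv_apply, Option.mem_some_iff]
    by_cases h : x = σ y
    · rw [if_pos h, if_pos, one_mul]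
      rw [h]
      simp
    · rw [if_neg h, if_neg, zero_mul]
      intro h2
      apply h
      rw [← h2]
      simp
  have hdet : W.det = 1 := by
    rw [hW, det_mul, det_permutation, det_diagonal, hd, Finset.prod_pi_mulSingle',
      if_pos (Finset.mem_univ _), Equiv.Perm.sign_inv]
    exact hεε
  let w : SpecialLinearGroup (Fin (m + 2)) K := ⟨W, hdet⟩
  refine ⟨w, ε, hε0, ?_⟩
  intro t
  set T : SpecialLinearGroup (Fin (m + 2)) K :=
    ⟨transvection i j (ε * t), det_transvection_of_ne _ _ hij _⟩ with hT
  have key : w * sx t = T * w := by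
    apply Subtype.ext
    change W * transvection 0 1 t = transvection i j (ε * t) * W
    rw [transvection, transvection, Matrix.mul_add, Matrix.add_mul, Matrix.mul_one, Matrix.one_mul]
    congr 1
    ext x y
    by_cases hy : y = 1
    · subst hy
      rw [mul_single_apply_same, hWapp, hσ0, hd0]
      by_cases hx : x = i
      · subst hx
        rw [single_mul_apply_same, hWapp, if_pos rfl, if_pos hσ1.symm, hd1]
        linear_combination (-t) * hεε
      · rw [if_neg hx, single_mul_apply_of_ne (h := hx), zero_mul]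
    · rw [mul_single_apply_of_ne (hbj := hy)]
      by_cases hx : x = i
      · subst hx
        rw [single_mul_apply_same, hWapp, if_neg, mul_zero]
        intro h
        apply hy
        apply σ.injective
        rw [← h, hσ1]
      · rw [single_mul_apply_of_ne (h := hx)]
  rw [key, mul_inv_cancel_right]

end Pool.Agent.H6.BCP
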